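import Pool.Agent.H98.PW.Stmts

/-!
# PW: the final theorems (general forms)

Modules: `PWR` (from `S_PWC`), `PWF` (from `S_PWR` and the count of the coefficients), `PWK`
(corollaries of `S_PWF`).
-/

set_option autoImplicit false

namespace Pool.PW

open Finset Pool.Agent.H98.ABCR

/-- products of `N` powers of integers `≤ X` -/
def PowProd (N : ℕ) (X : ℝ) (a : ℕ) : Prop :=
  ∃ x e : Fin N → ℕ, (∀ k, 1 ≤ x k ∧ (x k : ℝ) ≤ X) ∧ a = ∏ k, x k ^ e k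

/-- THEOREM A: sums of power products which are power products, uniform in the coefficients `α`
and in all exponents (from `S_PWC`; bases equal to `1` get the exponent `0`; one class for each
exponent vector) -/
def S_PWR : Prop := ∀ (N : ℕ) (ε : ℝ), 0 < ε → ∃ K η C : ℝ, 1 ≤ K ∧ 0 < η ∧ 1 ≤ C ∧
  ∀ (X : ℝ) (α : Fin 3 → ℕ) (F : Finset (ℕ × ℕ)), 1 ≤ X →
  (∀ v ∈ F, IsTri v ∧ X ^ K ≤ ((v.1 + v.2 : ℕ) : ℝ) ∧
    Real.log ((v.1 + v.2 : ℕ) : ℝ) ≤ X ^ η ∧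
    ∀ s, ∃ b, PowProd N X b ∧ coord v s = α s * b) →
  (F.card : ℝ) ≤ C * X ^ ε

/-- the exponents `> E` of the primes of `a` which do not divide `r` -/
def dex (E r a : ℕ) : Finset ℕ :=
  (a.primeFactors.filter (fun p => ¬ p ∣ r ∧ E < a.factorization p)).image a.factorization

/-- THEOREM B: all but `C Y X ^ ε` of the coprime pairs with `rad ≤ X` for which, outside a divisor
`r ≤ Y` of the radical, there are at most `N` different exponents `> E`, satisfy `c ≤ X ^ K`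
(heights up to `exp (X ^ η)`; few exponent vectors on `r`) (from `S_PWR` with `X ^ (E + 1)` in place of
`X`: the primes with exponents `≤ E` are one factor `≤ X ^ E`) -/
def S_PWF : Prop := ∀ (N E : ℕ) (ε : ℝ), 0 < ε → ∃ K η C : ℝ, 1 ≤ K ∧ 0 < η ∧ 1 ≤ C ∧
  ∀ (X Y : ℝ) (F : Finset (ℕ × ℕ)), 1 ≤ X → 1 ≤ Y →
  (∀ v ∈ F, IsTri v ∧ (RR v : ℝ) ≤ X ∧ X ^ K ≤ ((v.1 + v.2 : ℕ) : ℝ) ∧
    Real.log ((v.1 + v.2 : ℕ) : ℝ) ≤ X ^ η ∧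
    ∃ r : ℕ, r ∣ RR v ∧ (r : ℝ) ≤ Y ∧ (dex E r (nn v)).card ≤ N ∧
      (om r : ℝ) * Real.log (2 + Real.log ((v.1 + v.2 : ℕ) : ℝ) / om r) ≤ η * Real.log X) →
  (F.card : ℝ) ≤ C * Y * X ^ ε

/-- COROLLARIES: at most `k` primes; few different exponents; few large primes -/
def S_PWK : Prop :=
  (∀ (k : ℕ) (ε : ℝ), 0 < ε → ∃ K η C : ℝ, 1 ≤ K ∧ 0 < η ∧ 1 ≤ C ∧
    ∀ (X : ℝ) (F : Finset (ℕ × ℕ)), 1 ≤ X →
    (∀ v ∈ F, IsTri v ∧ (RR v : ℝ) ≤ X ∧ om (nn v) ≤ k ∧ X ^ K ≤ ((v.1 + v.2 : ℕ) : ℝ) ∧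
      Real.log ((v.1 + v.2 : ℕ) : ℝ) ≤ X ^ η) → (F.card : ℝ) ≤ C * X ^ ε) ∧
  (∀ (N E : ℕ) (ε : ℝ), 0 < ε → ∃ K η C : ℝ, 1 ≤ K ∧ 0 < η ∧ 1 ≤ C ∧
    ∀ (X : ℝ) (F : Finset (ℕ × ℕ)), 1 ≤ X →
    (∀ v ∈ F, IsTri v ∧ (RR v : ℝ) ≤ X ∧
      (((nn v).primeFactors.image (nn v).factorization).filter (fun e => E < e)).card ≤ N ∧
      X ^ K ≤ ((v.1 + v.2 : ℕ) : ℝ) ∧ Real.log ((v.1 + v.2 : ℕ) : ℝ) ≤ X ^ η) →
    (F.card : ℝ) ≤ C * X ^ ε) ∧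
  S_PWM

end Pool.PW
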