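import Pool.Agent.H98.PW.Stmts

/-! # Row CHN of PW: chains exist -/

set_option autoImplicit false

namespace Pool.PW

open Finset Filter MvPolynomial

private lemma vars_pd {n : ℕ} (f : MvPolynomial (Fin n) ℚ) (k : Fin n) :
    (pderiv k f).vars ⊆ f.vars := by
  intro j hj
  rw [mem_vars_iff_mem_support] at hj ⊢
  obtain ⟨d, hd, hjd⟩ := hj
  refine ⟨d + Finsupp.single k 1, ?_, ?_⟩
  · rw [mem_support_iff] at hd ⊢
    rw [coeff_pderiv] at hd
    exact left_ne_zero_of_mul hd
  · rw [Finsupp.mem_support_iff] at hjd ⊢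
    simp only [Finsupp.add_apply]
    omega

private lemma deg_pd {n : ℕ} (f : MvPolynomial (Fin n) ℚ) (k : Fin n) (d : ℕ)
    (h : degreeOf k f ≤ d + 1) : degreeOf k (pderiv k f) ≤ d := by
  rw [degreeOf_eq_sup]
  apply Finset.sup_le
  intro m hm
  rw [mem_support_iff, coeff_pderiv] at hm
  have h1 := monomial_le_degreeOf k (mem_support_iff.mpr (left_ne_zero_of_mul hm))
  simp at h1
  omega

private lemma pd_zero {n : ℕ} (f : MvPolynomial (Fin n) ℚ) (k : Fin n) (h : pderiv k f = 0) :
    k ∉ f.vars := by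
  intro hk
  rw [mem_vars_iff_mem_support] at hk
  obtain ⟨d, hd, hkd⟩ := hk
  have h1 : coeff (d - Finsupp.single k 1) (pderiv k f) = 0 := by rw [h]; simp
  rw [coeff_pderiv] at h1
  rw [Finsupp.mem_support_iff] at hkd
  have e : d - Finsupp.single k 1 + Finsupp.single k 1 = d := by
    apply tsub_add_cancel_of_le
    rw [Finsupp.single_le_iff]
    omega
  rw [e] at h1
  have h2 : (((d - Finsupp.single k 1 : Fin n →₀ ℕ) k : ℕ) : ℚ) + 1 ≠ 0 := by positivity
  exact (mem_support_iff.mp hd) ((mul_eq_zero.mp h1).resolve_right h2)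

private lemma lv_pd {U : Ultrafilter ℕ} {X : ℕ → ℝ} {n : ℕ} (m : ℕ) (k : Fin n) (F : RP U X n) :
    lv m (pderiv k F) = pderiv k (lv m F) := by
  unfold lv
  rw [pderiv_map]

theorem chn_thm (hS : S_SCL) : S_CHN := by
  classical
  intro U X n T hX hG
  -- nonempty levels
  have hne : ∀ᶠ m in (U : Filter ℕ), (T m).Nonempty := by
    obtain ⟨c, hc, hL⟩ := hG.1
    filter_upwards [hL, hX.eventually_ge_atTop 1] with m h1 h2
    rw [← Finset.card_pos]
    have h3 : 0 < X m ^ c := Real.rpow_pos_of_pos (by linarith) c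
    have : (0 : ℝ) < ((T m).card : ℝ) := lt_of_lt_of_le h3 h1
    exact_mod_cast this
  let Ind : Finset (Fin n) → Prop := fun J => ∀ F : RP U X n,
    (∀ᶠ m in (U : Filter ℕ), (lv m F).vars ⊆ J) → Van T F → Null F
  have h0 : Ind ∅ := by
    intro F hv hF
    unfold Null
    filter_upwards [hv, hF, hne] with m h1 h2 h3
    obtain ⟨x, hx⟩ := h3
    have h4 : (lv m F).vars = ∅ := Finset.subset_empty.mp h1
    obtain ⟨a, ha⟩ : ∃ a, lv m F = C a := by
      refine ⟨coeff 0 (lv m F), ?_⟩
      exact (vars_eq_empty_iff_eq_C.mp h4)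
    have h5 := h2 x hx
    unfold ev at h5
    rw [ha, eval_C] at h5
    rw [ha, h5, C_0]
  obtain ⟨J, hJ1, hJ2⟩ := Finset.exists_max_image ((univ : Finset (Finset (Fin n))).filter Ind)
    Finset.card ⟨∅, by rw [mem_filter]; exact ⟨mem_univ _, h0⟩⟩
  rw [mem_filter] at hJ1
  have hJ := hJ1.2
  have key : ∀ k, ∃ (G : RP U X n) (g : ℕ → MvPolynomial (Fin n) ℤ), k ∉ J →
      ((∀ᶠ m in (U : Filter ℕ), (g m).vars ⊆ insert k J) ∧
      (∀ᶠ m in (U : Filter ℕ), lv m G = map (Int.castRingHom ℚ) (g m)) ∧
      Van T G ∧ ¬ Van T (pderiv k G)) := by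
    intro k
    by_cases hk : k ∈ J
    · exact ⟨0, fun _ => 0, fun h => absurd hk h⟩
    have hn : ¬ Ind (insert k J) := by
      intro h
      have := hJ2 (insert k J) (by rw [mem_filter]; exact ⟨mem_univ _, h⟩)
      rw [Finset.card_insert_of_notMem hk] at this
      omega
    let P : ℕ → Prop := fun d => ∃ F : RP U X n, (∀ᶠ m in (U : Filter ℕ),
      (lv m F).vars ⊆ insert k J ∧ degreeOf k (lv m F) ≤ d) ∧ Van T F ∧ ¬ Null F
    have hP : ∃ d, P d := by
      simp only [Ind, not_forall] at hn
      obtain ⟨F, hF1, hF2, hF3⟩ := hn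
      refine ⟨degreeOf k F, F, ?_, hF2, hF3⟩
      filter_upwards [hF1] with m h1
      refine ⟨h1, ?_⟩
      rw [degreeOf_eq_sup, degreeOf_eq_sup]
      exact Finset.sup_mono (support_map_subset _ _)
    obtain ⟨F, hF1, hF2, hF3⟩ := Nat.find_spec hP
    have hmin : ∀ d < Nat.find hP, ¬ P d := fun d hd => Nat.find_min hP hd
    have hpd : ¬ Null (pderiv k F) := by
      intro h
      apply hF3
      apply hJ F _ hF2
      unfold Null at h
      filter_upwards [h, hF1] with m h1 h2
      rw [lv_pd] at h1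
      have h3 := pd_zero _ _ h1
      intro j hj
      have h4 := h2.1 hj
      rw [Finset.mem_insert] at h4
      rcases h4 with rfl | h4
      · exact absurd hj h3
      · exact h4
    have hnv : ¬ Van T (pderiv k F) := by
      intro h
      rcases Nat.eq_zero_or_pos (Nat.find hP) with h0 | h0
      · apply hpd
        unfold Null
        filter_upwards [hF1] with m h1
        rw [lv_pd]
        have h2 : degreeOf k (lv m F) = 0 := by omega
        have h3 : k ∉ (lv m F).vars := by
          rw [mem_vars_iff_degreeOf_ne_zero]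
          simp [h2]
        exact pderiv_eq_zero_of_notMem_vars h3
      · apply hmin (Nat.find hP - 1) (by omega)
        refine ⟨pderiv k F, ?_, h, hpd⟩
        filter_upwards [hF1] with m h1
        rw [lv_pd]
        refine ⟨(vars_pd _ _).trans h1.1, ?_⟩
        apply deg_pd
        omega
    obtain ⟨a, g, hag⟩ := hS U X n F
    refine ⟨C a * F, g, fun _ => ⟨?_, ?_, ?_, ?_⟩⟩
    · filter_upwards [hag, hF1] with m h1 h2
      have e1 : (map (Int.castRingHom ℚ) (g m)).vars = (g m).vars :=
        vars_map_of_injective _ (Int.cast_injective)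
      rw [← e1, ← h1.2]
      have e2 : lv m (C a * F) = C (lam m a) * lv m F := by
        unfold lv
        rw [map_mul, map_C]
      rw [e2, vars_C_mul _ h1.1]
      exact h2.1
    · filter_upwards [hag] with m h1
      exact h1.2
    · unfold Van at hF2 ⊢
      filter_upwards [hF2] with m h1 x hx
      have := h1 x hx
      unfold ev lv at this ⊢
      rw [map_mul, map_mul, this, mul_zero]
    · intro h
      apply hnv
      unfold Van at h ⊢
      filter_upwards [h, hag] with m h1 h2 x hx
      have h3 := h1 x hx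
      rw [pderiv_C_mul] at h3
      unfold ev lv at h3 ⊢
      rw [map_mul, map_mul, map_C, eval_C] at h3
      exact (mul_eq_zero.mp h3).resolve_left h2.1
  choose G g hGg using key
  refine ⟨J, fun k => if k ∈ J then 0 else G k, fun m k => if k ∈ J then 0 else g k m, ?_⟩
  refine ⟨hJ, ?_, ?_, ?_, ?_⟩
  · rw [eventually_all]
    intro k
    by_cases hk : k ∈ J
    · exact Eventually.of_forall fun m h => absurd hk h
    · filter_upwards [(hGg k hk).1] with m h1 _
      simpa [hk] using h1
  · rw [eventually_all]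
    intro k
    by_cases hk : k ∈ J
    · refine Eventually.of_forall fun m => ?_
      simp [hk, lv]
    · filter_upwards [(hGg k hk).2.1] with m h1
      simpa [hk] using h1
  · intro k hk
    simp only [hk, if_false]
    exact (hGg k hk).2.2.1
  · intro k hk
    simp only [hk, if_false]
    exact (hGg k hk).2.2.2

end Pool.PW
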