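import Pool.Agent.H98.PW.Stmts

/-! # Row RNG of PW: the ring of functions modulo `p ^ r` -/

set_option autoImplicit false

namespace Pool.PW

open Finset MvPolynomial

section rng

variable {R 𝓕 : Type*} [CommRing R] [CommRing 𝓕] [Algebra R 𝓕]

private lemma filt_key (V V' A : Submodule R 𝓕) (hVA : V ≤ A) (hAA : A * A ≤ A)
    (hV' : V' ≤ V) (hV : V ≤ V' + V ^ 2 * A) (s : ℕ) : V ^ s ≤ V' ^ s + V ^ (s + 1) * A := by
  induction s with
  | zero =>
    rw [pow_zero, pow_zero, Submodule.add_eq_sup]
    exact le_sup_left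
  | succ s ih =>
    have hp : V' ^ s ≤ V ^ s := pow_le_pow_left' hV' s
    have e1 : V ^ (s + 1) ≤ (V' ^ s + V ^ (s + 1) * A) * (V' + V ^ 2 * A) := by
      rw [pow_succ]
      exact mul_le_mul' ih hV
    refine e1.trans ?_
    have e2 : (V' ^ s + V ^ (s + 1) * A) * (V' + V ^ 2 * A) =
        V' ^ (s + 1) + (V' ^ s * (V ^ 2 * A) + (V ^ (s + 1) * A * V' +
          V ^ (s + 2) * (V * (A * A)))) := by ring
    rw [e2]
    have b1 : V' ^ s * (V ^ 2 * A) ≤ V ^ (s + 1 + 1) * A := by
      calc V' ^ s * (V ^ 2 * A) ≤ V ^ s * (V ^ 2 * A) := mul_le_mul' hp le_rfl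
        _ = V ^ (s + 1 + 1) * A := by ring
    have b2 : V ^ (s + 1) * A * V' ≤ V ^ (s + 1 + 1) * A := by
      calc V ^ (s + 1) * A * V' ≤ V ^ (s + 1) * A * V := mul_le_mul' le_rfl hV'
        _ = V ^ (s + 1 + 1) * A := by ring
    have b3 : V ^ (s + 2) * (V * (A * A)) ≤ V ^ (s + 1 + 1) * A := by
      have : V * (A * A) ≤ A := by
        calc V * (A * A) ≤ A * A := mul_le_mul' hVA hAA
          _ ≤ A := hAA
      exact mul_le_mul' le_rfl this
    rw [Submodule.add_eq_sup, Submodule.add_eq_sup, Submodule.add_eq_sup, Submodule.add_eq_sup]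
    exact sup_le le_sup_left (le_sup_of_le_right (sup_le b1 (sup_le b2 b3)))

private lemma filt_step (V V' A : Submodule R 𝓕) (h1 : 1 ≤ A) (hVA : V ≤ A) (hAA : A * A ≤ A)
    (hA : A ≤ 1 + V * A) (hV' : V' ≤ V) (hV : V ≤ V' + V ^ 2 * A) (s : ℕ) :
    V ^ s * A ≤ V' ^ s + V ^ (s + 1) * A := by
  have k := filt_key V V' A hVA hAA hV' hV s
  calc V ^ s * A ≤ V ^ s * (1 + V * A) := mul_le_mul' le_rfl hA
    _ = V ^ s + V ^ (s + 1) * A := by ring
    _ ≤ V' ^ s + V ^ (s + 1) * A := by
      rw [Submodule.add_eq_sup, Submodule.add_eq_sup] at *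
      exact sup_le k le_sup_right

private lemma filt_all (V V' A : Submodule R 𝓕) (h1 : 1 ≤ A) (hVA : V ≤ A) (hAA : A * A ≤ A)
    (hA : A ≤ 1 + V * A) (hV' : V' ≤ V) (hV : V ≤ V' + V ^ 2 * A) (N : Submodule R 𝓕) (r : ℕ)
    (hN : ∀ s < r, V' ^ s ≤ N) : A ≤ N + V ^ r * A := by
  induction r with
  | zero => rw [pow_zero, one_mul, Submodule.add_eq_sup]; exact le_sup_right
  | succ r ih =>
    have i1 := ih (fun s hs => hN s (by omega))
    have i2 := filt_step V V' A h1 hVA hAA hA hV' hV r
    have i3 := hN r (by omega)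
    rw [Submodule.add_eq_sup] at *
    exact i1.trans (sup_le le_sup_left (i2.trans (sup_le (le_sup_of_le_left i3) le_sup_right)))

private lemma prod_mem_pow {n : ℕ} (V : Submodule R 𝓕) (w : Fin n → 𝓕) (hw : ∀ k, w k ∈ V)
    (c : Fin n → ℕ) (S : Finset (Fin n)) : ∏ k ∈ S, w k ^ c k ∈ V ^ (∑ k ∈ S, c k) := by
  classical
  induction S using Finset.induction_on with
  | empty => simpa using (Submodule.one_le.mp le_rfl : (1 : 𝓕) ∈ (1 : Submodule R 𝓕))
  | insert a S ha ih =>
    rw [prod_insert ha, sum_insert ha, pow_add]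
    exact Submodule.mul_mem_mul (Submodule.pow_mem_pow V (hw a) (c a)) ih

end rng

theorem rng_thm : S_RNG := by
  classical
  intro n r p J' ι _ w hp hr hdiv hrel
  have : NeZero (p ^ r) := ⟨pow_ne_zero _ hp.ne_zero⟩
  set R := ZMod (p ^ r) with hR
  let wk : Fin n → (ι → R) := fun k s => ((w s k : ℤ) : R)
  let φ : MvPolynomial (Fin n) ℤ →+* (ι → R) := eval₂Hom (Int.castRingHom (ι → R)) wk
  have hφ : ∀ F : MvPolynomial (Fin n) ℤ, φ F = fun s => ((eval (w s) F : ℤ) : R) := by
    intro F
    funext s
    have h1 : (Pi.evalRingHom (fun _ : ι => R) s).comp φ =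
        (Int.castRingHom R).comp (eval (w s)) := by
      apply MvPolynomial.ringHom_ext
      · intro a
        simp [φ]
      · intro i
        simp [φ, wk]
    exact RingHom.congr_fun h1 F
  let V : Submodule R (ι → R) := Submodule.span R (Set.range wk)
  let V' : Submodule R (ι → R) := Submodule.span R (wk '' (J' : Set (Fin n)))
  let A : Submodule R (ι → R) := Subalgebra.toSubmodule (Algebra.adjoin R (Set.range wk))
  have hwV : ∀ k, wk k ∈ V := fun k => Submodule.subset_span ⟨k, rfl⟩
  have h1A : (1 : Submodule R (ι → R)) ≤ A := by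
    rw [Submodule.one_le]
    exact Subalgebra.one_mem _
  have hVA : V ≤ A := Submodule.span_le.mpr Algebra.subset_adjoin
  have hAA : A * A ≤ A := by
    rw [Submodule.mul_le]
    intro x hx y hy
    exact Subalgebra.mul_mem _ hx hy
  have hV'V : V' ≤ V := Submodule.span_mono (Set.image_subset_range _ _)
  have hA : A ≤ 1 + V * A := by
    intro x hx
    have hx' : x ∈ Algebra.adjoin R (Set.range wk) := hx
    clear hx
    induction hx' using Algebra.adjoin_induction with
    | mem x hx =>
      rw [Submodule.add_eq_sup]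
      apply Submodule.mem_sup_right
      have : x * 1 ∈ V * A := Submodule.mul_mem_mul (Submodule.subset_span hx)
        (Subalgebra.one_mem _)
      rwa [mul_one] at this
    | algebraMap a =>
      rw [Submodule.add_eq_sup]
      apply Submodule.mem_sup_left
      exact Submodule.algebraMap_mem a
    | add x y hx hy ihx ihy => exact Submodule.add_mem _ ihx ihy
    | mul x y hx hy ihx ihy =>
      have h2 : x * y ∈ (1 + V * A) * (1 + V * A) := Submodule.mul_mem_mul ihx ihy
      have h3 : (1 + V * A) * (1 + V * A) ≤ 1 + V * A := by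
        have e : (1 + V * A) * (1 + V * A) = 1 + (V * A + (V * A + V * (V * (A * A)))) := by ring
        rw [e, Submodule.add_eq_sup, Submodule.add_eq_sup, Submodule.add_eq_sup]
        have b : V * (V * (A * A)) ≤ V * A :=
          mul_le_mul' le_rfl ((mul_le_mul' hVA hAA).trans hAA)
        exact sup_le le_sup_left (sup_le le_sup_right (sup_le le_sup_right (b.trans le_sup_right)))
      exact h3 h2
  have hpowA : ∀ m, V ^ m ≤ A := by
    intro m
    induction m with
    | zero => rw [pow_zero]; exact h1A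
    | succ m ih => rw [pow_succ]; exact (mul_le_mul' ih hVA).trans hAA
  have hmon : ∀ c : Fin n → ℕ, ∏ k, wk k ^ c k ∈ V ^ (∑ k, c k) :=
    fun c => prod_mem_pow V wk hwV c univ
  have hsm : ∀ (W : Submodule R (ι → R)) (a : ℤ) (x : ι → R), x ∈ W →
      (Int.castRingHom (ι → R)) a * x ∈ W := by
    intro W a x hx
    have : (Int.castRingHom (ι → R)) a * x = (a : R) • x := by
      funext s
      simp
    rw [this]
    exact W.smul_mem _ hx
  have hφA : ∀ F, φ F ∈ A := by
    intro F
    have e : φ F = ∑ d ∈ F.support, (Int.castRingHom (ι → R)) (coeff d F) *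
        ∏ i, wk i ^ d i := by
      simp only [φ, coe_eval₂Hom, eval₂_eq']
    rw [e]
    apply Submodule.sum_mem
    intro d _
    exact hsm _ _ _ (hpowA _ (hmon _))
  have hV : V ≤ V' + V ^ 2 * A := by
    apply Submodule.span_le.mpr
    rintro x ⟨k, rfl⟩
    obtain ⟨c, Q, hQ, hk⟩ := hrel k
    have e1 : wk k = (∑ j ∈ J', (c j : R) • wk j) + φ Q := by
      funext s
      have h2 := hk s
      have h3 : ((w s k - ∑ j ∈ J', c j * w s j - eval (w s) Q : ℤ) : R) = 0 := by
        rw [ZMod.intCast_zmod_eq_zero_iff_dvd]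
        exact_mod_cast h2
      rw [hφ]
      simp only [Pi.add_apply, Finset.sum_apply, Pi.smul_apply, smul_eq_mul]
      rw [Int.cast_sub, Int.cast_sub, Int.cast_sum, sub_sub, sub_eq_zero] at h3
      simp only [Int.cast_mul] at h3
      exact h3
    rw [e1]
    show _ ∈ (V' + V ^ 2 * A : Submodule R (ι → R))
    rw [Submodule.add_eq_sup]
    apply Submodule.add_mem
    · apply Submodule.mem_sup_left
      apply Submodule.sum_mem
      intro j hj
      exact V'.smul_mem _ (Submodule.subset_span ⟨j, hj, rfl⟩)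
    · apply Submodule.mem_sup_right
      have e : φ Q = ∑ d ∈ Q.support, (Int.castRingHom (ι → R)) (coeff d Q) *
          ∏ i, wk i ^ d i := by
        simp only [φ, coe_eval₂Hom, eval₂_eq']
      rw [e]
      apply Submodule.sum_mem
      intro d hd
      apply hsm
      have h4 := hQ d hd
      have h5 : V ^ (∑ l, d l) ≤ V ^ 2 * A := by
        obtain ⟨m, hm⟩ := Nat.exists_eq_add_of_le h4
        rw [hm, pow_add]
        exact mul_le_mul' le_rfl (hpowA m)
      exact h5 (hmon _)
  -- monomials
  let mon : (J' → Fin r) → (ι → R) := fun β => ∏ j : J', wk j ^ (β j : ℕ)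
  let N : Submodule R (ι → R) := Submodule.span R (Set.range mon)
  have hmonN : ∀ c : J' → ℕ, (∀ j, c j < r) → ∏ j : J', wk j ^ c j ∈ N := by
    intro c hc
    exact Submodule.subset_span ⟨fun j => ⟨c j, hc j⟩, rfl⟩
  have hN : ∀ s < r, V' ^ s ≤ N := by
    intro s hs
    have key : ∀ s, V' ^ s ≤ Submodule.span R
        {x | ∃ c : J' → ℕ, (∑ j, c j) = s ∧ x = ∏ j : J', wk j ^ c j} := by
      intro s
      induction s with
      | zero =>
        rw [pow_zero, Submodule.one_le]
        apply Submodule.subset_span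
        exact ⟨fun _ => 0, by simp, by simp⟩
      | succ s ih =>
        rw [pow_succ]
        refine (mul_le_mul' ih le_rfl).trans ?_
        rw [Submodule.span_mul_span]
        apply Submodule.span_mono
        rintro x ⟨y, ⟨c, hc, rfl⟩, z, ⟨j, hj, rfl⟩, rfl⟩
        have hj' : j ∈ J' := hj
        refine ⟨c + Pi.single ⟨j, hj'⟩ 1, ?_, ?_⟩
        · simp only [Pi.add_apply, Finset.sum_add_distrib, hc]
          rw [Finset.sum_eq_single (⟨j, hj'⟩ : J')]
          · simp
          · intro b _ hb
            simp [Pi.single_eq_of_ne hb]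
          · intro h
            exact absurd (mem_univ _) h
        · simp only [Pi.add_apply, pow_add, Finset.prod_mul_distrib]
          congr 1
          rw [Finset.prod_eq_single (⟨j, hj'⟩ : J')]
          · simp
          · intro b _ hb
            simp [Pi.single_eq_of_ne hb]
          · intro h
            exact absurd (mem_univ _) h
    refine (key s).trans (Submodule.span_le.mpr ?_)
    rintro x ⟨c, hc, rfl⟩
    apply hmonN
    intro j
    have : c j ≤ ∑ j, c j := Finset.single_le_sum (f := c) (fun _ _ => Nat.zero_le _) (mem_univ j)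
    omega
  have hVr : V ^ r = ⊥ := by
    have key : ∀ s, V ^ s ≤ LinearMap.range (LinearMap.lsmul R (ι → R) ((p : R) ^ s)) := by
      intro s
      induction s with
      | zero =>
        intro x _
        exact ⟨x, by simp⟩
      | succ s ih =>
        rw [pow_succ, Submodule.mul_le]
        intro x hx y hy
        obtain ⟨x', hx'⟩ := ih hx
        have hy' : y ∈ LinearMap.range (LinearMap.lsmul R (ι → R) ((p : R))) := by
          have : V ≤ LinearMap.range (LinearMap.lsmul R (ι → R) ((p : R))) := by
            apply Submodule.span_le.mpr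
            rintro z ⟨k, rfl⟩
            choose u hu using fun s => hdiv s k
            refine ⟨fun s => ((u s : ℤ) : R), ?_⟩
            funext s
            simp only [LinearMap.lsmul_apply, Pi.smul_apply, smul_eq_mul, wk]
            rw [hu s, Int.cast_mul, Int.cast_natCast]
          exact this hy
        obtain ⟨y', hy''⟩ := hy'
        refine ⟨x' * y', ?_⟩
        rw [← hx', ← hy'']
        simp only [LinearMap.lsmul_apply]
        rw [smul_mul_smul_comm, pow_succ]
    have h0 : ((p : R)) ^ r = 0 := by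
      have h1 : ((p ^ r : ℕ) : R) = 0 := ZMod.natCast_self _
      rw [Nat.cast_pow] at h1
      exact h1
    rw [eq_bot_iff]
    refine (key r).trans ?_
    rw [h0]
    rintro x ⟨y, rfl⟩
    simp
  have hAN : A ≤ N := by
    have := filt_all V V' A h1A hVA hAA hA hV'V hV N r hN
    rw [hVr, Submodule.add_eq_sup] at this
    refine this.trans (sup_le le_rfl ?_)
    rw [Submodule.mul_le]
    intro x hx y _
    rw [Submodule.mem_bot] at hx
    rw [hx, zero_mul]
    exact N.zero_mem
  refine ⟨(univ : Finset ((J' → Fin r) → R)).image (fun c => ∑ β, c β • mon β), ?_, ?_⟩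
  · refine card_image_le.trans ?_
    rw [card_univ, Fintype.card_fun, ZMod.card, Fintype.card_fun, Fintype.card_fin,
      Fintype.card_coe, ← pow_mul]
  · intro F
    rw [← hφ F]
    have := hAN (hφA F)
    rw [Submodule.mem_span_range_iff_exists_fun] at this
    obtain ⟨c, hc⟩ := this
    rw [mem_image]
    exact ⟨c, mem_univ _, hc⟩

end Pool.PW
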