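import Pool.Agent.H12.PW.ELM
import Pool.Agent.H13.PW.PWC
import Pool.Agent.H13.PW.PWR
import Pool.Agent.H13.PW.STB
import Pool.Agent.H2.PW.HEN
import Pool.Agent.H2.PW.ODE
import Pool.Agent.H22.PW.GEN
import Pool.Agent.H22.PW.NOEF
import Pool.Agent.H22.PW.NOEM
import Pool.Agent.H23.PW.PATH
import Pool.Agent.H36.PW.MAP
import Pool.Agent.H38.PW.PRS
import Pool.Agent.H38.PW.SEL
import Pool.Agent.H41.PW.DTN
import Pool.Agent.H50.PW.CLS
import Pool.Agent.H51.PW.DLG
import Pool.Agent.H54.PW.UNQ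
import Pool.Agent.H63.PW.TAY
import Pool.Agent.H70.PW.DET
import Pool.Agent.H72.PW.LFT
import Pool.Agent.H72.PW.PWN
import Pool.Agent.H78.PW.DIC
import Pool.Agent.H78.PW.HTE
import Pool.Agent.H8.PW.PRM
import Pool.Agent.H8.PW.SCL
import Pool.Agent.H80.PW.VST
import Pool.Agent.H82.PW.EVN
import Pool.Agent.H82.PW.PWM
import Pool.Agent.H98.PW.RNG
import Pool.Agent.H98.PW.CHN

/-! # PW: assembly -/

set_option autoImplicit false

namespace Pool.PW

theorem all_DTN : S_DTN :=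
  dtn_thm (det_thm (elm_thm tay_thm) rng_thm) (sel_thm prs_thm cls_thm) lft_thm

theorem all_PRM : S_PRM := prm_thm dic_thm

theorem all_PWN : S_PWN :=
  pwn_thm (gen_thm noem_thm) (chn_thm scl_thm)
    (stb_thm all_DTN scl_thm hte_thm all_PRM map_thm dlg_thm)
    (vst_thm map_thm dlg_thm dic_thm all_PRM hte_thm all_DTN) noef_thm
    (sel_thm prs_thm cls_thm) (path_thm hen_thm evn_thm unq_thm ode_thm dlg_thm) all_PRM map_thm
    hte_thm

theorem all_PWC : S_PWC := pwc_thm all_PWN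

theorem all_PWR : S_PWR := pwr_thm13 all_PWC

theorem all_PWM : S_PWM := pwm_thm all_PWC

end Pool.PW
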