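import Pool.Agent.H98.PW.All
import Pool.Agent.H70.PW.PWF
import Pool.Agent.H94.LH.Fin

/-! # PW: the final statement -/

set_option autoImplicit false

namespace Pool.PW

open Finset Pool.Agent.H98.ABCR

/-- the product of the primes dividing `a b (a + b)` -/
def rdF (t : ℕ × ℕ) : ℕ := ∏ p ∈ (t.1 * t.2 * (t.1 + t.2)).primeFactors, p

/-- the exponents `> E` of the primes dividing `a b (a + b)` but not `r` -/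
def exF (E r : ℕ) (t : ℕ × ℕ) : Finset ℕ :=
  ((t.1 * t.2 * (t.1 + t.2)).primeFactors.filter (fun p =>
    ¬ p ∣ r ∧ E < (t.1 * t.2 * (t.1 + t.2)).factorization p)).image
      (t.1 * t.2 * (t.1 + t.2)).factorization

/-- the products of `N` powers of integers at most `X` -/
def PPF (N : ℕ) (X : ℝ) : Set ℕ :=
  {a | ∃ x e : Fin N → ℕ, (∀ k, 1 ≤ x k ∧ (x k : ℝ) ≤ X) ∧ a = ∏ k, x k ^ e k}

/-- the coprime pairs with `X ^ K ≤ a + b ≤ exp (X ^ η)` -/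
def MidF (K η X : ℝ) : Set (ℕ × ℕ) :=
  {t | 0 < t.1 ∧ 0 < t.2 ∧ Nat.Coprime t.1 t.2 ∧ X ^ K ≤ ((t.1 + t.2 : ℕ) : ℝ) ∧
    Real.log ((t.1 + t.2 : ℕ) : ℝ) ≤ X ^ η}

theorem fin_A (hA : S_PWR) : ∀ (N : ℕ) (ε : ℝ), 0 < ε → ∃ K η C : ℝ, 1 ≤ K ∧ 0 < η ∧ 1 ≤ C ∧
    ∀ (X : ℝ) (u v w : ℕ), 1 ≤ X →
      {t : ℕ × ℕ | t ∈ MidF K η X ∧ (∃ a ∈ PPF N X, t.1 = u * a) ∧ (∃ b ∈ PPF N X, t.2 = v * b) ∧
        ∃ c ∈ PPF N X, t.1 + t.2 = w * c}.Finite ∧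
      ({t : ℕ × ℕ | t ∈ MidF K η X ∧ (∃ a ∈ PPF N X, t.1 = u * a) ∧
        (∃ b ∈ PPF N X, t.2 = v * b) ∧ ∃ c ∈ PPF N X, t.1 + t.2 = w * c}.ncard : ℝ) ≤
          C * X ^ ε := by
  intro N ε hε
  obtain ⟨K, η, C, h1, h2, h3, h4⟩ := hA N ε hε
  refine ⟨K, η, C, h1, h2, h3, fun X u v w hX => ?_⟩
  apply Pool.LH.fin_bound
  intro F hF
  apply h4 X ![u, v, w] F hX
  intro t ht
  obtain ⟨⟨a1, a2, a3, a4, a5⟩, ⟨a, ha, ea⟩, ⟨b, hb, eb⟩, ⟨c, hc, ec⟩⟩ := hF ht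
  refine ⟨⟨a1, a2, a3⟩, a4, a5, ?_⟩
  intro s
  fin_cases s
  · exact ⟨a, ha, ea⟩
  · exact ⟨b, hb, eb⟩
  · exact ⟨c, hc, ec⟩

theorem fin_B (hB : S_PWF) : ∀ (N E : ℕ) (ε : ℝ), 0 < ε → ∃ K η C : ℝ, 1 ≤ K ∧ 0 < η ∧ 1 ≤ C ∧
    ∀ X Y : ℝ, 1 ≤ X → 1 ≤ Y →
      {t : ℕ × ℕ | t ∈ MidF K η X ∧ (rdF t : ℝ) ≤ X ∧ ∃ r : ℕ, r ∣ rdF t ∧ (r : ℝ) ≤ Y ∧
        (exF E r t).card ≤ N ∧ (r.primeFactors.card : ℝ) *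
          Real.log (2 + Real.log ((t.1 + t.2 : ℕ) : ℝ) / r.primeFactors.card) ≤
            η * Real.log X}.Finite ∧
      ({t : ℕ × ℕ | t ∈ MidF K η X ∧ (rdF t : ℝ) ≤ X ∧ ∃ r : ℕ, r ∣ rdF t ∧ (r : ℝ) ≤ Y ∧
        (exF E r t).card ≤ N ∧ (r.primeFactors.card : ℝ) *
          Real.log (2 + Real.log ((t.1 + t.2 : ℕ) : ℝ) / r.primeFactors.card) ≤
            η * Real.log X}.ncard : ℝ) ≤ C * Y * X ^ ε := by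
  intro N E ε hε
  obtain ⟨K, η, C, h1, h2, h3, h4⟩ := hB N E ε hε
  refine ⟨K, η, C, h1, h2, h3, fun X Y hX hY => ?_⟩
  apply Pool.LH.fin_bound
  intro F hF
  apply h4 X Y F hX hY
  intro t ht
  obtain ⟨⟨a1, a2, a3, a4, a5⟩, a6, r, b1, b2, b3, b4⟩ := hF ht
  exact ⟨⟨a1, a2, a3⟩, a6, a4, a5, r, b1, b2, b3, b4⟩

end Pool.PW
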