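import Pool.Agent.H98.ABCR.Stmts

/-!
# PW: few exceptions to the weak abc inequality when there are few small primes

Definitions and the statements of the modules.  Proofs in words: `/team-store/PW_PLAN_helper98.md`.
Module `XXX` is a theorem `xxx_thm (h1 : S_AAA) ... : S_XXX` in `Pool/Agent/H<k>/PW/XXX.lean`
(import this file, namespace `Pool.PW`).
-/

set_option autoImplicit false

namespace Pool.PW

open Finset Filter MvPolynomial Pool.Agent.H98.ABCR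

/-! ## Part A: vector fields -/

section Field

variable {n : ℕ} {A : Type*} [CommRing A]

/-- `∏_{k ∉ J} ∂_k G_k` -/
noncomputable def bb (J : Finset (Fin n)) (G : Fin n → MvPolynomial (Fin n) A) :
    MvPolynomial (Fin n) A := ∏ k ∈ univ \ J, pderiv k (G k)

/-- `∏_{l ∉ J, l ≠ k} ∂_l G_l` -/
noncomputable def bk (J : Finset (Fin n)) (G : Fin n → MvPolynomial (Fin n) A) (k : Fin n) :
    MvPolynomial (Fin n) A := ∏ l ∈ (univ \ J).erase k, pderiv l (G l)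

/-- the derivation `bb (∂_i - ∑_{k ∉ J} (∂_i G_k / ∂_k G_k) ∂_k)` -/
noncomputable def EE (J : Finset (Fin n)) (G : Fin n → MvPolynomial (Fin n) A) (i : Fin n)
    (F : MvPolynomial (Fin n) A) : MvPolynomial (Fin n) A :=
  bb J G * pderiv i F - ∑ k ∈ univ \ J, bk J G k * pderiv i (G k) * pderiv k F

/-- the term `α_s ∏_{sd k = s} x_k ^ e_k` as a polynomial -/
noncomputable def tmp (e : Fin n → ℕ) (sd : Fin n → Fin 3) (α : Fin 3 → ℕ) (s : Fin 3) :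
    MvPolynomial (Fin n) A := C (α s : A) * ∏ k ∈ univ.filter (fun k => sd k = s), X k ^ e k

/-- `∏ x_k` times the logarithmic derivative of the term `s` in the direction `EE i` -/
noncomputable def xi (J : Finset (Fin n)) (G : Fin n → MvPolynomial (Fin n) A) (c : Fin n → A)
    (sd : Fin n → Fin 3) (i : Fin n) (s : Fin 3) : MvPolynomial (Fin n) A :=
  ∑ k ∈ univ.filter (fun k => sd k = s), C (c k) * EE J G i (X k) * ∏ l ∈ univ.erase k, X l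

end Field

/-- a point with natural coordinates -/
def pt {n : ℕ} (x : Fin n → ℕ) : Fin n → ℤ := fun k => x k

/-- the term `α_s ∏_{sd k = s} x_k ^ e_k` -/
def tm {n : ℕ} (e : Fin n → ℕ) (sd : Fin n → Fin 3) (α : Fin 3 → ℕ) (s : Fin 3) (x : Fin n → ℕ) :
    ℕ := α s * ∏ k ∈ univ.filter (fun k => sd k = s), x k ^ e k

/-- everything commutes with a change of the ring -/
def S_MAP : Prop := ∀ (A B : Type) [CommRing A] [CommRing B] (φ : A →+* B) (n : ℕ)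
  (J : Finset (Fin n)) (G : Fin n → MvPolynomial (Fin n) A),
  map φ (bb J G) = bb J (fun k => map φ (G k)) ∧
  (∀ i F, map φ (EE J G i F) = EE J (fun k => map φ (G k)) i (map φ F)) ∧
  (∀ c sd i s, map φ (xi J G c sd i s) = xi J (fun k => map φ (G k)) (fun k => φ (c k)) sd i s) ∧
  ∀ e sd α s, map φ (tmp e sd α s) = (tmp e sd α s : MvPolynomial (Fin n) B)

/-- `EE i` is a derivation; it kills the `G_k` in the variables `J + k`; logarithmic derivatives of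
the terms -/
def S_DLG : Prop := ∀ (A : Type) [CommRing A] (n : ℕ) (J : Finset (Fin n))
  (G : Fin n → MvPolynomial (Fin n) A) (i : Fin n),
  (∀ F H, EE J G i (F * H) = F * EE J G i H + H * EE J G i F) ∧
  (∀ F H, EE J G i (F + H) = EE J G i F + EE J G i H) ∧
  (∀ k, k ∉ J → (∀ l, l ∉ J → (G l).vars ⊆ insert l J) → i ∈ J → EE J G i (G k) = 0) ∧
  ∀ (e : Fin n → ℕ) (sd : Fin n → Fin 3) (α : Fin 3 → ℕ) (s : Fin 3),
    (∏ k, X k) * EE J G i (tmp e sd α s) = tmp e sd α s * xi J G (fun k => (e k : A)) sd i s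

/-! ## Part B: the determinant method (finite level) -/

/-- Taylor expansion up to terms of degree `2` -/
def S_TAY : Prop := ∀ (n : ℕ) (P : Fin n → ℤ) (F : MvPolynomial (Fin n) ℤ),
  ∃ Q : MvPolynomial (Fin n) ℤ, (∀ c ∈ Q.support, 2 ≤ ∑ k, c k) ∧ ∀ w : Fin n → ℤ,
    eval (fun k => P k + w k) F = eval P F + ∑ k, eval P (pderiv k F) * w k + eval w Q

/-- all differences are linear combinations of those with index in `J - i` up to terms of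
degree `2` (from `S_TAY` for the `G k` and `F`; everything modulo `p ^ r`) -/
def S_ELM : Prop := ∀ (n r p : ℕ) (J : Finset (Fin n)) (i : Fin n) (P : Fin n → ℤ)
  (G : Fin n → MvPolynomial (Fin n) ℤ) (F : MvPolynomial (Fin n) ℤ), p.Prime → i ∈ J →
  (∀ k, k ∉ J → (G k).vars ⊆ insert k J ∧ eval P (G k) = 0) → eval P F = 0 →
  ¬ (p : ℤ) ∣ eval P (bb J G * EE J G i F) →
  ∀ k, ∃ (c : Fin n → ℤ) (Q : MvPolynomial (Fin n) ℤ), (∀ a ∈ Q.support, 2 ≤ ∑ l, a l) ∧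
    ∀ w : Fin n → ℤ, (∀ l, l ∉ J → eval (fun j => P j + w j) (G l) = 0) →
      eval (fun j => P j + w j) F = 0 →
      (p : ℤ) ^ r ∣ w k - ∑ j ∈ J.erase i, c j * w j - eval w Q

/-- the ring of functions modulo `p ^ r` is small: it is spanned by the monomials
`∏_{j ∈ J'} w_j ^ β_j`, `β_j < r` -/
def S_RNG : Prop := ∀ (n r p : ℕ) (J' : Finset (Fin n)) (ι : Type) [Fintype ι] (w : ι → Fin n → ℤ),
  p.Prime → 1 ≤ r → (∀ s k, (p : ℤ) ∣ w s k) →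
  (∀ k, ∃ (c : Fin n → ℤ) (Q : MvPolynomial (Fin n) ℤ), (∀ a ∈ Q.support, 2 ≤ ∑ l, a l) ∧
    ∀ s, (p : ℤ) ^ r ∣ w s k - ∑ j ∈ J', c j * w s j - eval (w s) Q) →
  ∃ M : Finset (ι → ZMod (p ^ r)), M.card ≤ p ^ (r * r ^ J'.card) ∧
    ∀ F : MvPolynomial (Fin n) ℤ, (fun s => ((eval (w s) F : ℤ) : ZMod (p ^ r))) ∈ M

/-- DETERMINANT METHOD: if the points of a class modulo `p` are on a hypersurface transversal to
the chain `G`, then they satisfy a relation of bounded degree in the variables of `J` -/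
def S_DET : Prop := ∀ (n : ℕ) (η : ℝ), 0 < η → ∃ (D : ℕ) (B X0 : ℝ), 1 ≤ B ∧ 2 ≤ X0 ∧
  ∀ (X : ℝ) (p : ℕ) (J : Finset (Fin n)) (i : Fin n) (P : Fin n → ℕ) (S : Finset (Fin n → ℕ))
    (G : Fin n → MvPolynomial (Fin n) ℤ) (F : MvPolynomial (Fin n) ℤ),
  X0 ≤ X → p.Prime → X ^ η ≤ p → i ∈ J → P ∈ S →
  (∀ x ∈ S, ∀ k, (x k : ℝ) ≤ X ∧ (p : ℤ) ∣ (x k : ℤ) - P k) →
  (∀ k, k ∉ J → (G k).vars ⊆ insert k J) →
  (∀ x ∈ S, (∀ k, k ∉ J → eval (pt x) (G k) = 0) ∧ eval (pt x) F = 0) →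
  ¬ (p : ℤ) ∣ eval (pt P) (bb J G * EE J G i F) →
  ∃ H : MvPolynomial (Fin n) ℤ, H ≠ 0 ∧ H.vars ⊆ J ∧ H.totalDegree ≤ D ∧
    (∀ c, |((H.coeff c : ℤ) : ℝ)| ≤ (p : ℝ) ^ B) ∧ ∀ x ∈ S, eval (pt x) H = 0

/-! ## Part C: the path (finite level) -/

/-- Hensel's lemma for power series -/
def S_HEN : Prop := ∀ (p : ℕ) [Fact p.Prime] (g : Polynomial (PowerSeries ℤ_[p])) (y0 : ℤ_[p]),
  PowerSeries.constantCoeff (g.eval (PowerSeries.C y0)) = 0 →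
  IsUnit (PowerSeries.constantCoeff (g.derivative.eval (PowerSeries.C y0))) →
  ∃ y : PowerSeries ℤ_[p], PowerSeries.constantCoeff y = y0 ∧ g.eval y = 0

/-- the value of a power series at `p`, modulo `p ^ N` -/
def S_EVN : Prop := ∀ (p N : ℕ) [Fact p.Prime], ∃ θ : PowerSeries ℤ_[p] →+* ZMod (p ^ N),
  (∀ a, θ (PowerSeries.C a) = PadicInt.toZModPow N a) ∧ θ PowerSeries.X = (p : ZMod (p ^ N))

/-- uniqueness of simple roots modulo `p ^ N` -/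
def S_UNQ : Prop := ∀ (p N : ℕ) (g : Polynomial (ZMod (p ^ N))) (y z : ZMod (p ^ N)), p.Prime →
  (∃ u, y - z = p * u) → g.eval y = 0 → g.eval z = 0 → IsUnit (g.derivative.eval y) → y = z

/-- a linear differential system with zero initial value -/
def S_ODE : Prop := ∀ (K : Type) [Field K] [CharZero K] (q : ℕ) (b : PowerSeries K)
  (y : Fin q → PowerSeries K) (M : Fin q → Fin q → PowerSeries K),
  PowerSeries.constantCoeff b ≠ 0 → (∀ a, PowerSeries.constantCoeff (y a) = 0) →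
  (∀ a, b * PowerSeries.derivative K (y a) = ∑ c, M a c * y c) → ∀ a, y a = 0

/-- PATH: two points of the same class have proportional terms -/
def S_PATH : Prop := ∀ (n p q : ℕ) (J : Finset (Fin n)) (g : Fin n → MvPolynomial (Fin n) ℤ)
  (G : Fin n → MvPolynomial (Fin n) ℚ) (e : Fin n → ℕ) (sd : Fin n → Fin 3) (α : Fin 3 → ℕ)
  (s t : Fin 3) (Fs : Fin q → MvPolynomial (Fin n) ℚ)
  (Q : Fin n → Fin q → Fin q → MvPolynomial (Fin n) ℚ)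
  (Q' : Fin n → Fin q → MvPolynomial (Fin n) ℚ) (P x : Fin n → ℕ), p.Prime →
  (∀ k, k ∉ J → (g k).vars ⊆ insert k J ∧ G k = map (Int.castRingHom ℚ) (g k)) →
  (∀ i ∈ J, ∀ a, EE J G i (Fs a) = ∑ c, Q i a c * Fs c) →
  (∀ i ∈ J, xi J G (fun k => (e k : ℚ)) sd i s - xi J G (fun k => (e k : ℚ)) sd i t =
    ∑ c, Q' i c * Fs c) →
  (∀ a, eval (fun k => (P k : ℚ)) (Fs a) = 0) → (∀ k, 1 ≤ P k) →
  (∀ k, k ∉ J → eval (pt P) (g k) = 0 ∧ eval (pt x) (g k) = 0) →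
  (∀ k, (p : ℤ) ∣ (x k : ℤ) - P k) → ¬ (p : ℤ) ∣ eval (pt P) (bb J g) →
  tm e sd α s P * tm e sd α t x = tm e sd α s x * tm e sd α t P

/-! ## Part D: the limit -/

/-- the basic size -/
noncomputable def mm (X : ℕ → ℝ) (m : ℕ) : ℝ := 2 + |X m|

/-- sequences of rational numbers of moderate height -/
def Modr (U : Ultrafilter ℕ) (X : ℕ → ℝ) : Subring (ℕ → ℚ) where
  carrier := {a | ∃ (C : ℕ) (u v : ℕ → ℤ), ∀ᶠ m in (U : Filter ℕ), v m ≠ 0 ∧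
    a m * v m = u m ∧ |(u m : ℝ)| ≤ mm X m ^ C ∧ |(v m : ℝ)| ≤ mm X m ^ C}
  mul_mem' := by
    rintro a b ⟨C, u, v, h⟩ ⟨C', u', v', h'⟩
    refine ⟨C + C', fun m => u m * u' m, fun m => v m * v' m, ?_⟩
    filter_upwards [h, h'] with m ⟨h1, h2, h3, h4⟩ ⟨h1', h2', h3', h4'⟩
    refine ⟨mul_ne_zero h1 h1', ?_, ?_, ?_⟩
    · simp only [Pi.mul_apply]; push_cast; rw [← h2, ← h2']; ring
    · push_cast; rw [abs_mul, pow_add]
      exact mul_le_mul h3 h3' (abs_nonneg _) (by unfold mm; positivity)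
    · push_cast; rw [abs_mul, pow_add]
      exact mul_le_mul h4 h4' (abs_nonneg _) (by unfold mm; positivity)
  one_mem' := ⟨0, fun _ => 1, fun _ => 1, by simp⟩
  add_mem' := by
    rintro a b ⟨C, u, v, h⟩ ⟨C', u', v', h'⟩
    refine ⟨C + C' + 1, fun m => u m * v' m + u' m * v m, fun m => v m * v' m, ?_⟩
    filter_upwards [h, h'] with m ⟨h1, h2, h3, h4⟩ ⟨h1', h2', h3', h4'⟩
    have hm : 2 ≤ mm X m := by unfold mm; linarith [abs_nonneg (X m)]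
    have hp : 0 ≤ mm X m ^ (C + C') := by positivity
    refine ⟨mul_ne_zero h1 h1', ?_, ?_, ?_⟩
    · simp only [Pi.add_apply]; push_cast; rw [← h2, ← h2']; ring
    · push_cast
      have e1 : |(u m : ℝ) * v' m| ≤ mm X m ^ (C + C') := by
        rw [abs_mul, pow_add]
        exact mul_le_mul h3 h4' (abs_nonneg _) (by positivity)
      have e2 : |(u' m : ℝ) * v m| ≤ mm X m ^ (C + C') := by
        rw [abs_mul, pow_add, mul_comm]
        exact mul_le_mul h4 h3' (abs_nonneg _) (by positivity)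
      calc |(u m : ℝ) * v' m + u' m * v m| ≤ |(u m : ℝ) * v' m| + |(u' m : ℝ) * v m| :=
            abs_add_le _ _
        _ ≤ mm X m ^ (C + C') * mm X m := by nlinarith
        _ = mm X m ^ (C + C' + 1) := by rw [pow_succ]
    · push_cast
      have e1 : |(v m : ℝ) * v' m| ≤ mm X m ^ (C + C') := by
        rw [abs_mul, pow_add]
        exact mul_le_mul h4 h4' (abs_nonneg _) (by positivity)
      calc |(v m : ℝ) * v' m| ≤ mm X m ^ (C + C') * 1 := by rw [mul_one]; exact e1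
        _ ≤ mm X m ^ (C + C') * mm X m := mul_le_mul_of_nonneg_left (by linarith) hp
        _ = mm X m ^ (C + C' + 1) := by rw [pow_succ]
  zero_mem' := ⟨0, fun _ => 0, fun _ => 1, by simp⟩
  neg_mem' := by
    rintro a ⟨C, u, v, h⟩
    refine ⟨C, fun m => - u m, v, ?_⟩
    filter_upwards [h] with m ⟨h1, h2, h3, h4⟩
    refine ⟨h1, ?_, ?_, h4⟩
    · simp only [Pi.neg_apply]; push_cast; rw [← h2]; ring
    · push_cast; rw [abs_neg]; exact h3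

section Limit

variable (U : Ultrafilter ℕ) (X : ℕ → ℝ) {n : ℕ}

/-- polynomials with moderate coefficients -/
abbrev RP (n : ℕ) : Type := MvPolynomial (Fin n) (Modr U X)

variable {U X}

/-- the value at the level `m` -/
def lam (m : ℕ) : Modr U X →+* ℚ := (Pi.evalRingHom (fun _ : ℕ => ℚ) m).comp (Modr U X).subtype

/-- the polynomial at the level `m` -/
noncomputable def lv (m : ℕ) (F : RP U X n) : MvPolynomial (Fin n) ℚ := map (lam m) F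

/-- the value at a point, level `m` -/
noncomputable def ev (m : ℕ) (x : Fin n → ℕ) (F : RP U X n) : ℚ :=
  eval (fun k => (x k : ℚ)) (lv m F)

/-- zero at almost all levels -/
def Null (F : RP U X n) : Prop := ∀ᶠ m in (U : Filter ℕ), lv m F = 0

/-- `F` vanishes on the family `T` -/
def Van (T : ℕ → Finset (Fin n → ℕ)) (F : RP U X n) : Prop :=
  ∀ᶠ m in (U : Filter ℕ), ∀ x ∈ T m, ev m x F = 0

variable (U X)

/-- at least `X ^ c` points -/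
def Large (T : ℕ → Finset (Fin n → ℕ)) : Prop :=
  ∃ c : ℝ, 0 < c ∧ ∀ᶠ m in (U : Filter ℕ), X m ^ c ≤ ((T m).card : ℝ)

/-- every large subfamily has the same ideal -/
def Gen (T : ℕ → Finset (Fin n → ℕ)) : Prop := Large U X T ∧
  ∀ T' : ℕ → Finset (Fin n → ℕ), (∀ m, T' m ⊆ T m) → Large U X T' →
    ∀ F : RP U X n, Van T' F → Van T F

/-- all points are in the box `[1, X]` -/
def Box (T : ℕ → Finset (Fin n → ℕ)) : Prop :=
  ∀ᶠ m in (U : Filter ℕ), ∀ x ∈ T m, ∀ k, 1 ≤ x k ∧ (x k : ℝ) ≤ X m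

/-- independent variables `J` and relations `G k` (`g` is `G` with integer coefficients) -/
structure Chain (T : ℕ → Finset (Fin n → ℕ)) (J : Finset (Fin n)) (G : Fin n → RP U X n)
    (g : ℕ → Fin n → MvPolynomial (Fin n) ℤ) : Prop where
  ind : ∀ F : RP U X n, (∀ᶠ m in (U : Filter ℕ), (lv m F).vars ⊆ J) → Van T F → Null F
  vr : ∀ᶠ m in (U : Filter ℕ), ∀ k, k ∉ J → (g m k).vars ⊆ insert k J
  lvg : ∀ᶠ m in (U : Filter ℕ), ∀ k, lv m (G k) = map (Int.castRingHom ℚ) (g m k)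
  van : ∀ k, k ∉ J → Van T (G k)
  nz : ∀ k, k ∉ J → ¬ Van T (pderiv k (G k))

/-- the equation: sum of coprime terms, superpolynomial height, exponents and logarithms of the
terms subpolynomial -/
structure Eqn (T : ℕ → Finset (Fin n → ℕ)) (e : ℕ → Fin n → ℕ) (sd : Fin n → Fin 3)
    (α : ℕ → Fin 3 → ℕ) : Prop where
  pos : ∀ᶠ m in (U : Filter ℕ), ∀ s, 0 < α m s
  sum : ∀ᶠ m in (U : Filter ℕ), ∀ x ∈ T m,
    tm (e m) sd (α m) 0 x + tm (e m) sd (α m) 1 x = tm (e m) sd (α m) 2 x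
  cop : ∀ᶠ m in (U : Filter ℕ), ∀ x ∈ T m,
    (tm (e m) sd (α m) 0 x).Coprime (tm (e m) sd (α m) 1 x)
  big : ∀ K : ℝ, ∀ᶠ m in (U : Filter ℕ), ∀ x ∈ T m, X m ^ K ≤ (tm (e m) sd (α m) 2 x : ℝ)
  sml : ∀ c : ℝ, 0 < c → ∀ᶠ m in (U : Filter ℕ), ∀ x ∈ T m,
    Real.log (tm (e m) sd (α m) 2 x) ≤ X m ^ c
  exp : ∀ c : ℝ, 0 < c → ∀ᶠ m in (U : Filter ℕ), ∀ k, (e m k : ℝ) ≤ X m ^ c
  inj : ∀ᶠ m in (U : Filter ℕ), ∀ x ∈ T m, ∀ y ∈ T m,
    (∀ s, tm (e m) sd (α m) s x = tm (e m) sd (α m) s y) → x = y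

end Limit

/-- ascending chain condition for ideals which contain the null polynomials -/
def S_NOEM : Prop := ∀ (U : Ultrafilter ℕ) (X : ℕ → ℝ) (n : ℕ) (𝒮 : Set (Ideal (RP U X n))),
  𝒮.Nonempty → (∀ I ∈ 𝒮, ∀ F : RP U X n, Null F → F ∈ I) → ∃ I ∈ 𝒮, ∀ I' ∈ 𝒮, I ≤ I' → I' ≤ I

/-- such ideals are finitely generated up to null polynomials -/
def S_NOEF : Prop := ∀ (U : Ultrafilter ℕ) (X : ℕ → ℝ) (n : ℕ) (I : Ideal (RP U X n)),
  (∀ F : RP U X n, Null F → F ∈ I) → ∃ (q : ℕ) (Fs : Fin q → RP U X n), (∀ a, Fs a ∈ I) ∧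
    ∀ F ∈ I, ∃ Q : Fin q → RP U X n, Null (F - ∑ a, Q a * Fs a)

/-- one of two complementary parts of a large family is large -/
def S_DIC : Prop := ∀ (U : Ultrafilter ℕ) (X : ℕ → ℝ) (n : ℕ) (T T1 T2 : ℕ → Finset (Fin n → ℕ)),
  Tendsto X U atTop → Large U X T → (∀ m, T m ⊆ T1 m ∪ T2 m) → Large U X T1 ∨ Large U X T2

/-- existence of generic subfamilies (from `S_NOEM`) -/
def S_GEN : Prop := ∀ (U : Ultrafilter ℕ) (X : ℕ → ℝ) (n : ℕ) (S : ℕ → Finset (Fin n → ℕ)),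
  Tendsto X U atTop → Large U X S → ∃ T, (∀ m, T m ⊆ S m) ∧ Gen U X T

/-- the ideal of a generic family is prime (from `S_DIC`); and a non-element is nonzero on a large
subfamily of every large subfamily -/
def S_PRM : Prop := ∀ (U : Ultrafilter ℕ) (X : ℕ → ℝ) (n : ℕ) (T : ℕ → Finset (Fin n → ℕ)),
  Tendsto X U atTop → Gen U X T →
  (∀ F H : RP U X n, Van T (F * H) → Van T F ∨ Van T H) ∧
  ∀ (F : RP U X n) (T' : ℕ → Finset (Fin n → ℕ)), ¬ Van T F → (∀ m, T' m ⊆ T m) → Large U X T' →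
    ∃ T'' : ℕ → Finset (Fin n → ℕ), (∀ m, T'' m ⊆ T' m) ∧ Large U X T'' ∧
      ∀ m, ∀ x ∈ T'' m, ev m x F ≠ 0

/-- common denominator -/
def S_SCL : Prop := ∀ (U : Ultrafilter ℕ) (X : ℕ → ℝ) (n : ℕ) (F : RP U X n),
  ∃ (a : Modr U X) (g : ℕ → MvPolynomial (Fin n) ℤ), ∀ᶠ m in (U : Filter ℕ),
    lam m a ≠ 0 ∧ lv m (C a * F) = map (Int.castRingHom ℚ) (g m)

/-- values are moderate -/
def S_HTE : Prop := ∀ (U : Ultrafilter ℕ) (X : ℕ → ℝ) (n : ℕ) (F : RP U X n), ∃ B : ℕ,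
  ∀ᶠ m in (U : Filter ℕ), ∀ x : Fin n → ℕ, (∀ k, (x k : ℝ) ≤ X m) →
    |((ev m x F : ℚ) : ℝ)| ≤ mm X m ^ B

/-- integer polynomials of bounded degree with moderate coefficients come from `RP` -/
def S_LFT : Prop := ∀ (U : Ultrafilter ℕ) (X : ℕ → ℝ) (n D : ℕ) (B : ℕ)
  (H : ℕ → MvPolynomial (Fin n) ℤ),
  (∀ᶠ m in (U : Filter ℕ), (H m).totalDegree ≤ D ∧ ∀ c, |(((H m).coeff c : ℤ) : ℝ)| ≤ mm X m ^ B) →
  ∃ F : RP U X n, ∀ᶠ m in (U : Filter ℕ), lv m F = map (Int.castRingHom ℚ) (H m)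

/-- chains exist (from `S_PRM`, `S_SCL`) -/
def S_CHN : Prop := ∀ (U : Ultrafilter ℕ) (X : ℕ → ℝ) (n : ℕ) (T : ℕ → Finset (Fin n → ℕ)),
  Tendsto X U atTop → Gen U X T → ∃ (J : Finset (Fin n)) (G : Fin n → RP U X n)
    (g : ℕ → Fin n → MvPolynomial (Fin n) ℤ), Chain U X T J G g

/-- many primes between `X ^ η` and `X ^ (2 η)` -/
def S_PRS : Prop := ∀ η : ℝ, 0 < η → η ≤ 1 → ∃ X0 : ℝ, 2 ≤ X0 ∧ ∀ X : ℝ, X0 ≤ X →
  ∃ PP : Finset ℕ, (∀ p ∈ PP, p.Prime ∧ X ^ η ≤ p ∧ (p : ℝ) ≤ X ^ (2 * η)) ∧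
    X ^ (η / 2) ≤ (PP.card : ℝ)

/-- choice of a prime and of a class -/
def S_CLS : Prop := ∀ (n B : ℕ) (PP : Finset ℕ) (T : Finset (Fin n → ℕ)) (N : (Fin n → ℕ) → ℤ),
  (∀ p ∈ PP, 0 < p ∧ p ≤ B) → (∀ x ∈ T, ∃ p ∈ PP, ¬ (p : ℤ) ∣ N x) →
  ∃ (p : ℕ) (T' : Finset (Fin n → ℕ)), (T.Nonempty → p ∈ PP) ∧ T' ⊆ T ∧
    T.card ≤ PP.card * B ^ n * T'.card ∧
    ∀ x ∈ T', ¬ (p : ℤ) ∣ N x ∧ ∀ y ∈ T', ∀ k, (p : ℤ) ∣ (x k : ℤ) - y k

/-- the same for large families (from `S_PRS`, `S_CLS`) -/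
def S_SEL : Prop := ∀ (U : Ultrafilter ℕ) (X : ℕ → ℝ) (n : ℕ) (T : ℕ → Finset (Fin n → ℕ))
  (N : ℕ → (Fin n → ℕ) → ℤ), Tendsto X U atTop → Large U X T →
  (∀ c : ℝ, 0 < c → ∀ᶠ m in (U : Filter ℕ), ∀ x ∈ T m,
    N m x ≠ 0 ∧ Real.log |(N m x : ℝ)| ≤ X m ^ c) →
  ∃ (η : ℝ) (p : ℕ → ℕ) (T' : ℕ → Finset (Fin n → ℕ)), 0 < η ∧ (∀ m, T' m ⊆ T m) ∧
    Large U X T' ∧ ∀ᶠ m in (U : Filter ℕ), (p m).Prime ∧ X m ^ η ≤ p m ∧ (p m : ℝ) ≤ X m ∧
      ∀ x ∈ T' m, ¬ (p m : ℤ) ∣ N m x ∧ ∀ y ∈ T' m, ∀ k, (p m : ℤ) ∣ (x k : ℤ) - y k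

/-- DETERMINANT METHOD at the limit: integer polynomials which vanish on a large subfamily are
tangent to the chain (from `S_DET`, `S_SEL`, `S_LFT`) -/
def S_DTN : Prop := ∀ (U : Ultrafilter ℕ) (X : ℕ → ℝ) (n : ℕ) (T T' : ℕ → Finset (Fin n → ℕ))
  (J : Finset (Fin n)) (G : Fin n → RP U X n) (g : ℕ → Fin n → MvPolynomial (Fin n) ℤ)
  (F : ℕ → MvPolynomial (Fin n) ℤ) (i : Fin n), Tendsto X U atTop → Gen U X T → Box U X T →
  Chain U X T J G g → i ∈ J → (∀ m, T' m ⊆ T m) → Large U X T' →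
  (∀ᶠ m in (U : Filter ℕ), ∀ x ∈ T' m, eval (pt x) (F m) = 0 ∧
    eval (pt x) (bb J (g m) * EE J (g m) i (F m)) ≠ 0) →
  (∀ c : ℝ, 0 < c → ∀ᶠ m in (U : Filter ℕ), ∀ x ∈ T' m,
    Real.log |((eval (pt x) (bb J (g m) * EE J (g m) i (F m)) : ℤ) : ℝ)| ≤ X m ^ c) → False

/-- the ideal of a generic family is stable (from `S_DTN`, `S_SCL`, `S_HTE`, `S_PRM`, `S_MAP`) -/
def S_STB : Prop := ∀ (U : Ultrafilter ℕ) (X : ℕ → ℝ) (n : ℕ) (T : ℕ → Finset (Fin n → ℕ))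
  (J : Finset (Fin n)) (G : Fin n → RP U X n) (g : ℕ → Fin n → MvPolynomial (Fin n) ℤ),
  Tendsto X U atTop → Gen U X T → Box U X T → Chain U X T J G g →
  ∀ i ∈ J, ∀ F : RP U X n, Van T F → Van T (EE J G i F)

/-- the terms are proportional to first order (from `S_DTN`, `S_DLG`, `S_HTE`, `S_MAP`) -/
def S_VST : Prop := ∀ (U : Ultrafilter ℕ) (X : ℕ → ℝ) (n : ℕ) (T : ℕ → Finset (Fin n → ℕ))
  (J : Finset (Fin n)) (G : Fin n → RP U X n) (g : ℕ → Fin n → MvPolynomial (Fin n) ℤ)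
  (e : ℕ → Fin n → ℕ) (sd : Fin n → Fin 3) (α : ℕ → Fin 3 → ℕ) (es : Fin n → Modr U X),
  Tendsto X U atTop → Gen U X T → Box U X T → Chain U X T J G g → Eqn U X T e sd α →
  (∀ᶠ m in (U : Filter ℕ), ∀ k, lam m (es k) = (e m k : ℚ)) →
  ∀ i ∈ J, ∀ s : Fin 3, Van T (xi J G es sd i s - xi J G es sd i 2)

/-- no large families (from `S_GEN`, `S_CHN`, `S_STB`, `S_VST`, `S_NOEF`, `S_SEL`, `S_PATH`) -/
def S_PWN : Prop := ∀ (U : Ultrafilter ℕ) (X : ℕ → ℝ) (n : ℕ) (T : ℕ → Finset (Fin n → ℕ))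
  (e : ℕ → Fin n → ℕ) (sd : Fin n → Fin 3) (α : ℕ → Fin 3 → ℕ),
  Tendsto X U atTop → Box U X T → Eqn U X T e sd α → ¬ Large U X T

/-! ## Part E: the theorems -/

/-- CLASS THEOREM: sums of two coprime monomials of large height which are monomials -/
def S_PWC : Prop := ∀ (n : ℕ) (ε : ℝ), 0 < ε → ∃ K η X0 : ℝ, 1 ≤ K ∧ 0 < η ∧ η ≤ 1 ∧ 2 ≤ X0 ∧
  ∀ (X : ℝ) (e : Fin n → ℕ) (sd : Fin n → Fin 3) (α : Fin 3 → ℕ) (S : Finset (Fin n → ℕ)),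
  X0 ≤ X → (∀ k, (e k : ℝ) ≤ X ^ η) → (∀ s, 0 < α s) →
  (∀ x ∈ S, (∀ k, 1 ≤ x k ∧ (x k : ℝ) ≤ X) ∧ tm e sd α 0 x + tm e sd α 1 x = tm e sd α 2 x ∧
    (tm e sd α 0 x).Coprime (tm e sd α 1 x) ∧ X ^ K ≤ (tm e sd α 2 x : ℝ) ∧
    Real.log (tm e sd α 2 x) ≤ X ^ η) →
  (∀ x ∈ S, ∀ y ∈ S, (∀ s, tm e sd α s x = tm e sd α s y) → x = y) →
  (S.card : ℝ) ≤ X ^ ε

/-- the product of the primes `≤ z` which divide `a` -/
noncomputable def smr (z : ℝ) (a : ℕ) : ℕ :=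
  ∏ p ∈ a.primeFactors.filter (fun p : ℕ => (p : ℝ) ≤ z), p

/-- MAIN THEOREM -/
def S_PWM : Prop := ∀ δ ε : ℝ, 0 < δ → 0 < ε → ∃ K η C : ℝ, 1 ≤ K ∧ 0 < η ∧ 1 ≤ C ∧
  ∀ (X Y : ℝ) (F : Finset (ℕ × ℕ)), 1 ≤ X → 1 ≤ Y →
  (∀ v ∈ F, IsTri v ∧ (RR v : ℝ) ≤ X ∧ (smr (X ^ δ) (nn v) : ℝ) ≤ Y ∧
    X ^ K ≤ ((v.1 + v.2 : ℕ) : ℝ) ∧
    (om (nn v) : ℝ) * Real.log (2 + Real.log ((v.1 + v.2 : ℕ) : ℝ) / om (nn v)) ≤
      η * Real.log X) →
  (F.card : ℝ) ≤ C * Y * X ^ ε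

end Pool.PW
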